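import Pool.Agent.Helper1.RK.StE

set_option autoImplicit false

namespace Pool.Agent.Helper76.RK

open Pool.Agent.Helper1.RK

private theorem dzpow {K : Type} [Field K] (D : K → ℤ)
    (hm : ∀ g h, g ≠ 0 → h ≠ 0 → D (g * h) = D g + D h) (g : K) (hg : g ≠ 0) (k : ℤ) :
    D (g ^ k) = k * D g := by
  have h1 : D 1 = 0 := by
    have := hm 1 1 one_ne_zero one_ne_zero
    rw [one_mul] at this
    linarith
  have hinv : D g⁻¹ = - D g := by
    have := hm g g⁻¹ hg (inv_ne_zero hg)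
    rw [mul_inv_cancel₀ hg, h1] at this
    linarith
  induction k using Int.induction_on with
  | zero => simp [h1]
  | succ k ih =>
    rw [zpow_add_one₀ hg, hm _ _ (zpow_ne_zero _ hg) hg, ih]
    ring
  | pred k ih =>
    rw [zpow_sub_one₀ hg, hm _ _ (zpow_ne_zero _ hg) (inv_ne_zero hg), ih, hinv]
    ring

theorem pBET : StBET := by
  intro F K _ _ _ _ I X pd deg lc J rho a b w hV hS hm
  -- the cubics
  have hf : ∀ i, X (rho i) ^ 3 + a i * X (rho i) + b i ≠ 0 ∧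
      deg (rho i) (X (rho i) ^ 3 + a i * X (rho i) + b i) = 3 := by
    intro i
    obtain ⟨h1, h2, -⟩ := hV.cub (rho i) (a i) (b i) (hS.pda i _ (hS.rhoJ i i))
      (hS.pdb i _ (hS.rhoJ i i))
    exact ⟨h1, h2⟩
  obtain ⟨f, hfd⟩ : ∃ f : Fin 3 → K, ∀ i, f i = X (rho i) ^ 3 + a i * X (rho i) + b i :=
    ⟨_, fun i => rfl⟩
  obtain ⟨g, hgd⟩ : ∃ g : Fin 3 → K, ∀ i, g i = w i ^ 3 + a i * w i + b i :=
    ⟨_, fun i => rfl⟩
  have hf0 : ∀ i, f i ≠ 0 := fun i => by rw [hfd]; exact (hf i).1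
  have hf3 : ∀ i, deg (rho i) (f i) = 3 := fun i => by rw [hfd]; exact (hf i).2
  have hg0 : ∀ i, g i ≠ 0 := fun i => by rw [hgd]; exact hS.ne i
  have hpf : ∀ i j, i ≠ j → pd (rho i) (f j) = 0 := by
    intro i j hij
    rw [hfd]
    have e1 : pd (rho i) (X (rho j)) = 0 := hV.pd_ne _ _ (hS.rho_inj i j hij)
    have e2 := hS.pda j _ (hS.rhoJ i j)
    have e3 := hS.pdb j _ (hS.rhoJ i j)
    rw [map_add, map_add, Derivation.leibniz, Derivation.leibniz_pow, e1, e2, e3]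
    simp
  have hpg : ∀ i j, pd (rho i) (g j) = (3 * w j ^ 2 + a j) * pd (rho i) (w j) := by
    intro i j
    rw [hgd]
    have e2 := hS.pda j _ (hS.rhoJ i j)
    have e3 := hS.pdb j _ (hS.rhoJ i j)
    rw [map_add, map_add, Derivation.leibniz, Derivation.leibniz_pow, e2, e3]
    simp only [smul_eq_mul, nsmul_eq_mul]
    push_cast
    ring
  have hdf : ∀ i j, i ≠ j → deg (rho i) (f j) = 0 ∧ lc (rho i) (f j) = f j := fun i j hij =>
    hV.deg_pd _ _ (hf0 j) (hpf i j hij)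
  have hsq : ∀ i j, i ≠ j → IsSquare (f i * g i * (f j * g j)) := by
    intro i j hij
    rw [hfd i, hfd j, hgd i, hgd j]
    exact hS.sq i j hij
  have mm := fun i => hV.deg_mul i
  obtain ⟨p, hp⟩ := hsq 0 1 (by decide)
  obtain ⟨q, hq⟩ := hsq 0 2 (by decide)
  have hp0 : p ≠ 0 := by
    rintro rfl
    rw [mul_zero] at hp
    exact mul_ne_zero (mul_ne_zero (hf0 0) (hg0 0)) (mul_ne_zero (hf0 1) (hg0 1)) hp
  have hq0 : q ≠ 0 := by
    rintro rfl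
    rw [mul_zero] at hq
    exact mul_ne_zero (mul_ne_zero (hf0 0) (hg0 0)) (mul_ne_zero (hf0 2) (hg0 2)) hq
  obtain ⟨A, hA⟩ : ∃ A, A = g 0 * g 1 := ⟨_, rfl⟩
  obtain ⟨B, hB⟩ : ∃ B, B = g 0 * g 2 := ⟨_, rfl⟩
  have hA0 : A ≠ 0 := by rw [hA]; exact mul_ne_zero (hg0 0) (hg0 1)
  have hB0 : B ≠ 0 := by rw [hB]; exact mul_ne_zero (hg0 0) (hg0 2)
  have hpA : f 0 * f 1 * A = p * p := by rw [hA, ← hp]; ring
  have hqB : f 0 * f 2 * B = q * q := by rw [hB, ← hq]; ring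
  -- degrees
  obtain ⟨α, hα⟩ : ∃ α, α = deg (rho 0) A := ⟨_, rfl⟩
  obtain ⟨β, hβ⟩ : ∃ β, β = deg (rho 0) B := ⟨_, rfl⟩
  have dA : 3 + α = 2 * deg (rho 0) p := by
    have h1 := congrArg (deg (rho 0)) hpA
    rw [mm _ _ _ (mul_ne_zero (hf0 0) (hf0 1)) hA0, mm _ _ _ (hf0 0) (hf0 1), mm _ _ _ hp0 hp0,
      hf3 0, (hdf 0 1 (by decide)).1, ← hα] at h1
    linarith
  have dB : 3 + β = 2 * deg (rho 0) q := by
    have h1 := congrArg (deg (rho 0)) hqB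
    rw [mm _ _ _ (mul_ne_zero (hf0 0) (hf0 2)) hB0, mm _ _ _ (hf0 0) (hf0 2), mm _ _ _ hq0 hq0,
      hf3 0, (hdf 0 2 (by decide)).1, ← hβ] at h1
    linarith
  have oA : ∃ u : ℤ, α = 2 * u + 1 := ⟨deg (rho 0) p - 2, by linarith⟩
  have oB : ∃ v : ℤ, β = 2 * v + 1 := ⟨deg (rho 0) q - 2, by linarith⟩
  obtain ⟨u, hu⟩ := oA
  obtain ⟨v, hv⟩ := oB
  -- the function `m`
  obtain ⟨m, hmd⟩ : ∃ m, m = A ^ β * B ^ (-α) := ⟨_, rfl⟩
  have hm0 : m ≠ 0 := by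
    rw [hmd]; exact mul_ne_zero (zpow_ne_zero _ hA0) (zpow_ne_zero _ hB0)
  have dm : deg (rho 0) m = 0 := by
    rw [hmd, mm _ _ _ (zpow_ne_zero _ hA0) (zpow_ne_zero _ hB0),
      dzpow (deg (rho 0)) (mm (rho 0)) A hA0, dzpow (deg (rho 0)) (mm (rho 0)) B hB0, ← hα, ← hβ]
    ring
  -- `m` as a product
  have hAe : A = (f 0)⁻¹ * (f 1)⁻¹ * (p * p) := by
    rw [← hpA]
    have := hf0 0; have := hf0 1
    field_simp
  have hBe : B = (f 0)⁻¹ * (f 2)⁻¹ * (q * q) := by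
    rw [← hqB]
    have := hf0 0; have := hf0 2
    field_simp
  obtain ⟨G, hG0, hG⟩ : ∃ G, G ≠ 0 ∧ m = f 1 * f 2 * (G * G) := by
    refine ⟨(f 0) ^ (u - v) * (f 1) ^ (-v - 1) * (f 2) ^ u * (p ^ β * q ^ (-α)), ?_, ?_⟩
    · exact mul_ne_zero (mul_ne_zero (mul_ne_zero (zpow_ne_zero _ (hf0 0)) (zpow_ne_zero _ (hf0 1)))
        (zpow_ne_zero _ (hf0 2))) (mul_ne_zero (zpow_ne_zero _ hp0) (zpow_ne_zero _ hq0))
    · rw [hmd, hAe, hBe]
      simp only [mul_zpow, inv_zpow']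
      have e0 : (f 0) ^ (-β) * (f 0) ^ (-(-α)) = (f 0) ^ (u - v) * (f 0) ^ (u - v) := by
        rw [← zpow_add₀ (hf0 0), ← zpow_add₀ (hf0 0)]
        congr 1
        rw [hu, hv]; ring
      have e1 : (f 1) ^ (-β) = f 1 * ((f 1) ^ (-v - 1) * (f 1) ^ (-v - 1)) := by
        rw [← zpow_add₀ (hf0 1), ← zpow_one_add₀ (hf0 1)]
        congr 1
        rw [hv]; ring
      have e2 : (f 2) ^ (-(-α)) = f 2 * ((f 2) ^ u * (f 2) ^ u) := by
        rw [← zpow_add₀ (hf0 2), ← zpow_one_add₀ (hf0 2)]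
        congr 1
        rw [hu]; ring
      calc (f 0) ^ (-β) * (f 1) ^ (-β) * (p ^ β * p ^ β) *
            ((f 0) ^ (-(-α)) * (f 2) ^ (-(-α)) * (q ^ (-α) * q ^ (-α)))
          = ((f 0) ^ (-β) * (f 0) ^ (-(-α))) * (f 1) ^ (-β) * (f 2) ^ (-(-α)) *
            (p ^ β * p ^ β * (q ^ (-α) * q ^ (-α))) := by ring
        _ = _ := by rw [e0, e1, e2]; ring
  -- the Jacobian
  have hdA : ∀ i, pd (rho i) A = g 1 * ((3 * w 0 ^ 2 + a 0) * pd (rho i) (w 0)) +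
      g 0 * ((3 * w 1 ^ 2 + a 1) * pd (rho i) (w 1)) := by
    intro i
    rw [hA, Derivation.leibniz, hpg, hpg]
    simp only [smul_eq_mul]
    ring
  have hdB : ∀ i, pd (rho i) B = g 2 * ((3 * w 0 ^ 2 + a 0) * pd (rho i) (w 0)) +
      g 0 * ((3 * w 2 ^ 2 + a 2) * pd (rho i) (w 2)) := by
    intro i
    rw [hB, Derivation.leibniz, hpg, hpg]
    simp only [smul_eq_mul]
    ring
  have hmin : ∀ i j, pd (rho 0) (w i) * pd (rho 1) (w j) = pd (rho 1) (w i) * pd (rho 0) (w j) :=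
    fun i j => hm i j _ _ (fun k => hS.rhoJ 0 k) (fun k => hS.rhoJ 1 k)
  have hAB : pd (rho 0) B * pd (rho 1) A = pd (rho 1) B * pd (rho 0) A := by
    rw [hdA, hdA, hdB, hdB]
    have m01 := hmin 0 1
    have m20 := hmin 2 0
    have m21 := hmin 2 1
    linear_combination g 2 * (3 * w 0 ^ 2 + a 0) * (g 0 * (3 * w 1 ^ 2 + a 1)) * m01 +
      g 0 * (3 * w 2 ^ 2 + a 2) * (g 1 * (3 * w 0 ^ 2 + a 0)) * m20 +
      g 0 * (3 * w 2 ^ 2 + a 2) * (g 0 * (3 * w 1 ^ 2 + a 1)) * m21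
  have hdm : ∀ i, pd (rho i) m * (A * B) = m * (β * B * pd (rho i) A - α * A * pd (rho i) B) := by
    intro i
    have zA : pd (rho i) (A ^ β) * A = β * A ^ β * pd (rho i) A := by
      rw [Derivation.leibniz_zpow, zpow_sub_one₀ hA0]
      simp only [smul_eq_mul, zsmul_eq_mul]
      field_simp
    have zB : pd (rho i) (B ^ (-α)) * B = -α * B ^ (-α) * pd (rho i) B := by
      rw [Derivation.leibniz_zpow, zpow_sub_one₀ hB0]
      simp only [smul_eq_mul, zsmul_eq_mul]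
      push_cast
      field_simp
    rw [hmd, Derivation.leibniz]
    simp only [smul_eq_mul]
    linear_combination B ^ (-α) * B * zA + A ^ β * A * zB
  have hjac : pd (rho 1) m * pd (rho 0) A = pd (rho 0) m * pd (rho 1) A := by
    have h0 := hdm 0
    have h1 := hdm 1
    have hne : A * B ≠ 0 := mul_ne_zero hA0 hB0
    apply mul_right_cancel₀ hne
    linear_combination pd (rho 0) A * h1 - pd (rho 1) A * h0 + m * α * A * hAB
  have hα0 : deg (rho 0) A ≠ 0 := by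
    rw [← hα]; omega
  have hfin := hV.jac (rho 0) (rho 1) m A hm0 hA0 dm hα0 hjac
  have hG2 : G * G ≠ 0 := mul_ne_zero hG0 hG0
  rw [hG, hV.lc_mul _ _ _ (mul_ne_zero (hf0 1) (hf0 2)) hG2, hV.lc_mul _ _ _ (hf0 1) (hf0 2),
    hV.lc_mul _ _ _ hG0 hG0, (hdf 0 1 (by decide)).2, (hdf 0 2 (by decide)).2] at hfin
  have hl0 : lc (rho 0) G ≠ 0 := hV.lc_ne _ _ hG0
  have hl2 : lc (rho 0) G * lc (rho 0) G ≠ 0 := mul_ne_zero hl0 hl0
  have h3 := (hV.deg_pd (rho 1) _ (mul_ne_zero (mul_ne_zero (hf0 1) (hf0 2)) hl2) hfin).1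
  rw [mm _ _ _ (mul_ne_zero (hf0 1) (hf0 2)) hl2, mm _ _ _ (hf0 1) (hf0 2), mm _ _ _ hl0 hl0,
    hf3 1, (hdf 1 2 (by decide)).1] at h3
  omega

end Pool.Agent.Helper76.RK
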