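import Pool.Agent.Helper1.RK.StF

/-!
# Project RK (MP_de00bc_nt), module GMN: the multiplier of a generic isogeny is its degree
-/

set_option autoImplicit false

namespace Pool.Agent.Helper76.RK

open Polynomial Pool.Agent.Helper1.RK

/-- `g` is regular at `p` with value `v` -/
private def VV {L : Type} [Field L] (p : L) (g : RatFunc L) (v : L) : Prop := Reg p g ∧ ev p g = v

section

variable {L : Type} [Field L] {p : L}

private theorem vv_add (h4 : StREG) {g h : RatFunc L} {a b : L} (hg : VV p g a) (hh : VV p h b) :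
    VV p (g + h) (a + b) := by
  have := (h4 L p).2.2.2.2.2.2.1 g h hg.1 hh.1
  exact ⟨this.1, by rw [this.2.1, hg.2, hh.2]⟩

private theorem vv_mul (h4 : StREG) {g h : RatFunc L} {a b : L} (hg : VV p g a) (hh : VV p h b) :
    VV p (g * h) (a * b) := by
  have := (h4 L p).2.2.2.2.2.2.1 g h hg.1 hh.1
  exact ⟨this.2.2.1, by rw [this.2.2.2.1, hg.2, hh.2]⟩

private theorem vv_sub (h4 : StREG) {g h : RatFunc L} {a b : L} (hg : VV p g a) (hh : VV p h b) :
    VV p (g - h) (a - b) := by
  have := (h4 L p).2.2.2.2.2.2.1 g h hg.1 hh.1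
  exact ⟨this.2.2.2.2.1, by rw [this.2.2.2.2.2, hg.2, hh.2]⟩

private theorem vv_C (h4 : StREG) (a : L) : VV p (RatFunc.C a) a := (h4 L p).2.2.2.2.1 a

private theorem vv_X (h4 : StREG) : VV p (RatFunc.X : RatFunc L) p := (h4 L p).2.2.2.2.2.1

private theorem vv_pow (h4 : StREG) {g : RatFunc L} {a : L} (hg : VV p g a) (n : ℕ) :
    VV p (g ^ n) (a ^ n) := by
  induction n with
  | zero =>
    rw [pow_zero, pow_zero]
    have := vv_C (p := p) h4 (1 : L)
    rwa [map_one] at this
  | succ n ih =>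
    rw [pow_succ, pow_succ]
    exact vv_mul h4 ih hg

private theorem vv_uniq {g : RatFunc L} {a b : L} (h : VV p g a) (h' : VV p g b) : a = b := by
  rw [← h.2, ← h'.2]

private theorem vv_t (h4 : StREG) : VV p (RatFunc.X - RatFunc.C p) 0 := by
  have := vv_sub h4 (vv_X (p := p) h4) (vv_C (p := p) h4 p)
  rwa [sub_self] at this

private theorem t_ne : (RatFunc.X - RatFunc.C p : RatFunc L) ≠ 0 := by
  intro h
  have h1 : algebraMap L[X] (RatFunc L) (X - C p) = 0 := by
    rw [map_sub, RatFunc.algebraMap_X, RatFunc.algebraMap_C]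
    exact h
  have h2 : (X - C p : L[X]) = 0 := (RatFunc.algebraMap_injective L) (by rw [h1, map_zero])
  exact X_sub_C_ne_zero p h2

/-- pole form -/
private theorem pole (h3 : StORD) (h4 : StREG) {T : RatFunc L} (hT : ¬ Reg p T) :
    ∃ (n : ℕ) (u : RatFunc L) (a : L), 1 ≤ n ∧ a ≠ 0 ∧ VV p u a ∧
      T * (RatFunc.X - RatFunc.C p) ^ n = u := by
  obtain ⟨hT0, hT1⟩ := ((h4 L p).2.2.1 T).1 hT
  obtain ⟨n, hn⟩ : ∃ n : ℕ, (n : ℤ) = - ord p T := ⟨(- ord p T).toNat, by omega⟩
  have ht := t_ne (p := p)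
  have hu0 : T * (RatFunc.X - RatFunc.C p) ^ n ≠ 0 := mul_ne_zero hT0 (pow_ne_zero _ ht)
  have ho : ord p (T * (RatFunc.X - RatFunc.C p) ^ n) = 0 := by
    rw [(h3 L p).2.1 _ _ hT0 (pow_ne_zero _ ht), (h3 L p).2.2.2.2.1, (h3 L p).2.2.2.2.2.2.2.2.1]
    omega
  have hr : Reg p (T * (RatFunc.X - RatFunc.C p) ^ n) := ((h4 L p).2.1 _).2 (Or.inr (by omega))
  refine ⟨n, _, _, by omega, ?_, ⟨hr, rfl⟩, rfl⟩
  intro h0
  rcases ((h4 L p).2.2.2.1 _ hr).1 h0 with h | h
  · exact hu0 h
  · omega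

/-- a function vanishing at `p`, divided by the coordinate -/
private theorem div_t (h3 : StORD) (h4 : StREG) {v : RatFunc L} (hv : VV p v 0) :
    Reg p (v / (RatFunc.X - RatFunc.C p)) := by
  have ht := t_ne (p := p)
  rcases ((h4 L p).2.2.2.1 _ hv.1).1 hv.2 with h | h
  · rw [h, zero_div]
    exact ((h4 L p).2.1 _).2 (Or.inl rfl)
  · by_cases h0 : v = 0
    · rw [h0, zero_div]
      exact ((h4 L p).2.1 _).2 (Or.inl rfl)
    refine ((h4 L p).2.1 _).2 (Or.inr ?_)
    rw [div_eq_mul_inv, (h3 L p).2.1 _ _ h0 (inv_ne_zero ht), (h3 L p).2.2.1,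
      (h3 L p).2.2.2.2.2.2.2.2.1]
    omega

/-- the derivation on polynomials -/
private theorem Dt_poly {Dt : Derivation ℤ (RatFunc L) (RatFunc L)} (hD : Over 0 1 Dt) (P : L[X]) :
    Dt (algebraMap L[X] (RatFunc L) P) = algebraMap L[X] (RatFunc L) (derivative P) := by
  have hC : ∀ a : L, Dt (RatFunc.C a) = 0 := fun a => by
    rw [hD.1 a, Derivation.zero_apply, map_zero]
  induction P using Polynomial.induction_on with
  | C a => rw [RatFunc.algebraMap_C, hC, derivative_C, map_zero]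
  | add P Q hP hQ => rw [map_add, map_add, hP, hQ, derivative_add, map_add]
  | monomial n a h =>
    have e1 : algebraMap L[X] (RatFunc L) (C a * X ^ (n + 1)) =
        algebraMap L[X] (RatFunc L) (C a * X ^ n) * RatFunc.X := by
      rw [pow_succ, ← mul_assoc, map_mul, RatFunc.algebraMap_X]
    have e2 : derivative (C a * X ^ (n + 1) : L[X]) = derivative (C a * X ^ n) * X + C a * X ^ n := by
      rw [pow_succ, ← mul_assoc, derivative_mul, derivative_X, mul_one]
    have e3 : algebraMap L[X] (RatFunc L) (derivative (C a * X ^ n) * X) =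
        algebraMap L[X] (RatFunc L) (derivative (C a * X ^ n)) * RatFunc.X := by
      rw [map_mul, RatFunc.algebraMap_X]
    rw [e1, Derivation.leibniz, h, hD.2, e2, map_add, e3, smul_eq_mul, smul_eq_mul]
    ring

private theorem Dt_t {Dt : Derivation ℤ (RatFunc L) (RatFunc L)} (hD : Over 0 1 Dt) :
    Dt (RatFunc.X - RatFunc.C p) = 1 := by
  rw [map_sub, hD.2, hD.1, Derivation.zero_apply, map_zero, sub_zero]

private theorem Dt_reg [CharZero L] (h7 : StLCD) (h4 : StREG)
    {Dt : Derivation ℤ (RatFunc L) (RatFunc L)} (hD : Over 0 1 Dt) {g : RatFunc L} (hg : Reg p g) :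
    Reg p (Dt g) := by
  have h1 : Reg p (1 : RatFunc L) := by
    have := (vv_C (p := p) h4 (1 : L)).1
    rwa [map_one] at this
  exact (((h7 L p Dt hD).1 0 1 Dt hD h1).1 g hg).1

/-- derivative of a function with a pole -/
private theorem Dt_pole {Dt : Derivation ℤ (RatFunc L) (RatFunc L)} (hD : Over 0 1 Dt)
    {T u : RatFunc L} {n : ℕ} (hn : 1 ≤ n) (hu : T * (RatFunc.X - RatFunc.C p) ^ n = u) :
    Dt T * (RatFunc.X - RatFunc.C p) ^ (n + 1) =
      (RatFunc.X - RatFunc.C p) * Dt u - (n : RatFunc L) * u := by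
  obtain ⟨k, rfl⟩ : ∃ k, n = k + 1 := ⟨n - 1, by omega⟩
  rw [← hu, Derivation.leibniz, Derivation.leibniz_pow, Dt_t hD]
  simp only [smul_eq_mul, nsmul_eq_mul, Nat.add_sub_cancel, mul_one]
  ring

private theorem half [CharZero L] : (2 : RatFunc L)⁻¹ = RatFunc.C (2⁻¹ : L) := by
  rw [map_inv₀, map_ofNat]

private theorem loc0 [CharZero L] (h4 : StREG) (h7 : StLCD)
    {Dt : Derivation ℤ (RatFunc L) (RatFunc L)} (hD : Over 0 1 Dt) {T u f f' R : RatFunc L}
    {n : ℕ} {a b b' : L} (hn : 1 ≤ n) (hu : T * (RatFunc.X - RatFunc.C p) ^ n = u) (ha : VV p u a)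
    (hf : VV p f b) (hf' : VV p f' b') (hE : Dt T * f + T * f' / 2 = R) :
    VV p (R * (RatFunc.X - RatFunc.C p) ^ (n + 1)) (- (n * a * b)) := by
  have e : R * (RatFunc.X - RatFunc.C p) ^ (n + 1) =
      ((RatFunc.X - RatFunc.C p) * Dt u - RatFunc.C (n : L) * u) * f +
        u * (RatFunc.X - RatFunc.C p) * (f' * RatFunc.C (2⁻¹ : L)) := by
    rw [← half, map_natCast, ← Dt_pole hD hn hu, ← hE, ← hu]
    ring
  rw [e]
  have hdu : VV p (Dt u) (ev p (Dt u)) := ⟨Dt_reg h7 h4 hD ha.1, rfl⟩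
  have h := vv_add h4 (vv_mul h4 (vv_sub h4 (vv_mul h4 (vv_t h4) hdu)
    (vv_mul h4 (vv_C h4 (n : L)) ha)) hf)
    (vv_mul h4 (vv_mul h4 ha (vv_t h4)) (vv_mul h4 hf' (vv_C h4 (2⁻¹ : L))))
  convert h using 1
  ring

private theorem loc1 [CharZero L] (h4 : StREG) (h7 : StLCD)
    {Dt : Derivation ℤ (RatFunc L) (RatFunc L)} (hD : Over 0 1 Dt) {T u f f' f1 R : RatFunc L}
    {n : ℕ} {a b : L} (hn : 1 ≤ n) (hu : T * (RatFunc.X - RatFunc.C p) ^ n = u) (ha : VV p u a)
    (hf : f = (RatFunc.X - RatFunc.C p) * f1) (hf1 : VV p f1 b) (hf' : VV p f' b)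
    (hE : Dt T * f + T * f' / 2 = R) :
    VV p (R * (RatFunc.X - RatFunc.C p) ^ n) ((2⁻¹ - n) * a * b) := by
  have e : R * (RatFunc.X - RatFunc.C p) ^ n =
      ((RatFunc.X - RatFunc.C p) * Dt u - RatFunc.C (n : L) * u) * f1 +
        u * (f' * RatFunc.C (2⁻¹ : L)) := by
    rw [← half, map_natCast, ← Dt_pole hD hn hu, ← hE, ← hu, hf]
    ring
  rw [e]
  have hdu : VV p (Dt u) (ev p (Dt u)) := ⟨Dt_reg h7 h4 hD ha.1, rfl⟩
  have h := vv_add h4 (vv_mul h4 (vv_sub h4 (vv_mul h4 (vv_t h4) hdu)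
    (vv_mul h4 (vv_C h4 (n : L)) ha)) hf1)
    (vv_mul h4 ha (vv_mul h4 hf' (vv_C h4 (2⁻¹ : L))))
  convert h using 1
  ring

/-- the logarithmic derivative of a polynomial with a zero of order `k` -/
private theorem regU [CharZero L] (h3 : StORD) (h4 : StREG) (h7 : StLCD)
    {Dt : Derivation ℤ (RatFunc L) (RatFunc L)} (hD : Over 0 1 Dt) {T u : RatFunc L} {a c : L}
    {Q : L[X]} (hQ : Q ≠ 0) (hu : T * (RatFunc.X - RatFunc.C p) = u) (ha : VV p u a)
    (hac : a + c * (Q.rootMultiplicity p : L) = 0) :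
    Reg p (T + RatFunc.C c * (Dt (algebraMap L[X] (RatFunc L) Q) / algebraMap L[X] (RatFunc L) Q)) := by
  obtain ⟨Q1, hQ1, hQ2⟩ := exists_eq_pow_rootMultiplicity_mul_and_not_dvd Q hQ p
  set k := Q.rootMultiplicity p with hk
  have ht := t_ne (p := p)
  have hQ1e : Q1.eval p ≠ 0 := fun h => hQ2 (dvd_iff_isRoot.2 h)
  have hq1 : algebraMap L[X] (RatFunc L) Q1 ≠ 0 := by
    intro h
    have : Q1 = 0 := (RatFunc.algebraMap_injective L) (by rw [h, map_zero])
    rw [this, eval_zero] at hQ1e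
    exact hQ1e rfl
  have eQ : algebraMap L[X] (RatFunc L) Q =
      (RatFunc.X - RatFunc.C p) ^ k * algebraMap L[X] (RatFunc L) Q1 := by
    conv_lhs => rw [hQ1]
    rw [map_mul, map_pow, map_sub, RatFunc.algebraMap_X, RatFunc.algebraMap_C]
  have eL : Dt (algebraMap L[X] (RatFunc L) Q) / algebraMap L[X] (RatFunc L) Q =
      (k : RatFunc L) / (RatFunc.X - RatFunc.C p) +
        algebraMap L[X] (RatFunc L) (derivative Q1) / algebraMap L[X] (RatFunc L) Q1 := by
    rw [eQ, Derivation.leibniz, Derivation.leibniz_pow, Dt_t hD, Dt_poly hD]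
    simp only [smul_eq_mul, nsmul_eq_mul, mul_one]
    rcases Nat.eq_zero_or_pos k with h0 | h0
    · rw [h0]
      simp
    · obtain ⟨m, hm⟩ : ∃ m, k = m + 1 := ⟨k - 1, by omega⟩
      rw [hm]
      simp only [Nat.add_sub_cancel]
      field_simp
      ring
  have e2 : T + RatFunc.C c * (Dt (algebraMap L[X] (RatFunc L) Q) / algebraMap L[X] (RatFunc L) Q) =
      (u + RatFunc.C (c * (k : L))) / (RatFunc.X - RatFunc.C p) +
        RatFunc.C c * (algebraMap L[X] (RatFunc L) (derivative Q1) /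
          algebraMap L[X] (RatFunc L) Q1) := by
    rw [eL, ← hu, map_mul, map_natCast]
    field_simp
    ring
  rw [e2]
  have hr1 : Reg p ((u + RatFunc.C (c * (k : L))) / (RatFunc.X - RatFunc.C p)) := by
    apply div_t h3 h4
    have := vv_add h4 ha (vv_C (p := p) h4 (c * (k : L)))
    rwa [hac] at this
  have hr2 := ((h4 L p).1 (derivative Q1) Q1 hQ1e).1
  have v1 : VV p ((u + RatFunc.C (c * (k : L))) / (RatFunc.X - RatFunc.C p)) _ := ⟨hr1, rfl⟩
  have v2 : VV p (algebraMap L[X] (RatFunc L) (derivative Q1) / algebraMap L[X] (RatFunc L) Q1) _ :=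
    ⟨hr2, rfl⟩
  exact (vv_add h4 v1 (vv_mul h4 (vv_C h4 c) v2)).1


/-! ### Coefficients -/

private theorem cA1 (Q : L[X]) (n : ℕ) : (X * derivative Q).coeff n = Q.coeff n * (n : L) := by
  rcases n with _ | n
  · simp
  · rw [coeff_X_mul, coeff_derivative]
    push_cast
    ring

private theorem cA2 (Q : L[X]) (n : ℕ) :
    (X ^ 2 * derivative (derivative Q)).coeff n = Q.coeff n * ((n : L) * ((n : L) - 1)) := by
  have e : X ^ 2 * derivative (derivative Q) =
      X * derivative (X * derivative Q) - X * derivative Q := by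
    rw [derivative_mul, derivative_X, one_mul]
    ring
  rw [e, coeff_sub, cA1, cA1]
  ring

private theorem nA1 (Q : L[X]) : (X * derivative Q).natDegree ≤ Q.natDegree := by
  rw [natDegree_le_iff_coeff_eq_zero]
  intro N hN
  rw [cA1, coeff_eq_zero_of_natDegree_lt hN, zero_mul]

private theorem nA2 (Q : L[X]) : (X ^ 2 * derivative (derivative Q)).natDegree ≤ Q.natDegree := by
  rw [natDegree_le_iff_coeff_eq_zero]
  intro N hN
  rw [cA2, coeff_eq_zero_of_natDegree_lt hN, zero_mul]

private theorem nmul {A B : L[X]} {a b : ℕ} (hA : A.natDegree ≤ a) (hB : B.natDegree ≤ b) :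
    (A * B).natDegree ≤ a + b := le_trans natDegree_mul_le (by omega)

private theorem czero {A : L[X]} {a b : ℕ} (hA : A.natDegree ≤ a) (h : a < b) : A.coeff b = 0 :=
  coeff_eq_zero_of_natDegree_lt (by omega)

/-- the computation at infinity -/
private theorem infinity [CharZero L] {P Q N : L[X]} {j c β δ γ : L} (hγ : γ ≠ 0) (hβ : β ≠ 0)
    (hc : c = 2 * β / γ) (hQ : Q.Monic) (hN : N.natDegree = Q.natDegree + 1)
    (hNl : N.leadingCoeff = γ⁻¹)
    (h : C 2 * (derivative P * Q ^ 2 * (X ^ 3 + C j * X + C j)) -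
      C (2 * c) * ((derivative (derivative Q) * Q - derivative Q ^ 2) * (X ^ 3 + C j * X + C j)) +
      P * Q ^ 2 * (C 3 * X ^ 2 + C j) - C c * (derivative Q * Q * (C 3 * X ^ 2 + C j)) =
      C (2 * β) * (N * Q - X * Q ^ 2) - C (2 * δ) * Q ^ 2) : γ = (Q.natDegree : L) + 1 := by
  set q := Q.natDegree with hq
  set f : L[X] := X ^ 3 + C j * X + C j with hf
  set F1 : L[X] := X * (C 3 * X ^ 2 + C j) with hF1
  have hff : f.natDegree ≤ 3 := by rw [hf]; compute_degree
  have hfc : f.coeff 3 = 1 := by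
    rw [hf]
    simp [coeff_X, coeff_C]
  have hF1' : F1.natDegree ≤ 3 := by
    rw [hF1]
    have : (C 3 * X ^ 2 + C j : L[X]).natDegree ≤ 2 := by compute_degree
    exact le_trans (nmul (a := 1) natDegree_X_le this) (by norm_num)
  have hF1c : F1.coeff 3 = 3 := by
    rw [hF1]
    rw [show (3 : ℕ) = 2 + 1 from rfl, coeff_X_mul]
    simp [coeff_X, coeff_C]
  have hQQ : (Q * Q).natDegree ≤ q + q := nmul le_rfl le_rfl
  have hQc : Q.coeff q = 1 := hQ
  have hQQc : (Q * Q).coeff (q + q) = 1 := by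
    rw [coeff_mul_add_eq_of_natDegree_le le_rfl le_rfl, hQc, one_mul]
  have hId : C 2 * ((X * (X * derivative P)) * (Q * Q) * f) -
      C (2 * c) * (((X ^ 2 * derivative (derivative Q)) * Q -
        (X * derivative Q) * (X * derivative Q)) * f) +
      P * (Q * Q) * (X * F1) - C c * ((X * derivative Q) * Q * F1) =
      C (2 * β) * (N * Q * X ^ 2 - (X ^ 3 * (Q * Q))) - C (2 * δ) * (X ^ 2 * (Q * Q)) := by
    rw [hF1]
    linear_combination X ^ 2 * h
  have hX2 : (X ^ 2 : L[X]).natDegree ≤ 2 := natDegree_X_pow_le 2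
  have hX3 : (X ^ 3 : L[X]).natDegree ≤ 3 := natDegree_X_pow_le 3
  have d1 : (((X ^ 2 * derivative (derivative Q)) * Q -
      (X * derivative Q) * (X * derivative Q)) * f).natDegree ≤ (q + q) + 3 := by
    apply nmul _ hff
    refine le_trans (natDegree_sub_le _ _) (max_le ?_ ?_)
    · exact nmul (nA2 Q) le_rfl
    · exact nmul (nA1 Q) (nA1 Q)
  have d2 : ((X * derivative Q) * Q * F1).natDegree ≤ (q + q) + 3 :=
    nmul (nmul (nA1 Q) le_rfl) hF1'
  have d3 : (N * Q * X ^ 2).natDegree ≤ ((q + 1) + q) + 2 :=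
    nmul (nmul hN.le le_rfl) hX2
  have d4 : (X ^ 3 * (Q * Q)).natDegree ≤ 3 + (q + q) := nmul hX3 hQQ
  have d5 : (X ^ 2 * (Q * Q)).natDegree ≤ 2 + (q + q) := nmul hX2 hQQ
  have hP0 : P = 0 := by
    by_contra hP
    set k := P.natDegree with hk
    have hPl : P.coeff k ≠ 0 := by
      rw [hk]
      exact leadingCoeff_ne_zero.2 hP
    have hco := congrArg (fun R : L[X] => R.coeff ((k + (q + q)) + 4)) hId
    simp only [coeff_sub, coeff_add, coeff_C_mul] at hco
    rw [czero d1 (by omega), czero d2 (by omega), czero d3 (by omega), czero d4 (by omega),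
      czero d5 (by omega)] at hco
    have e1 : ((X * (X * derivative P)) * (Q * Q) * f).coeff ((k + (q + q)) + 4) =
        (k : L) * P.coeff k := by
      have hB : (X * (X * derivative P)).natDegree ≤ 1 + k := nmul natDegree_X_le (nA1 P)
      rw [show (k + (q + q)) + 4 = ((1 + k) + (q + q)) + 3 by ring,
        coeff_mul_add_eq_of_natDegree_le (nmul hB hQQ) hff, coeff_mul_add_eq_of_natDegree_le hB hQQ, hfc, hQQc,
        show 1 + k = k + 1 by ring, coeff_X_mul, cA1]
      ring
    have e2 : (P * (Q * Q) * (X * F1)).coeff ((k + (q + q)) + 4) = 3 * P.coeff k := by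
      have hB : (X * F1).natDegree ≤ 1 + 3 := nmul natDegree_X_le hF1'
      rw [show (4 : ℕ) = 1 + 3 from rfl, coeff_mul_add_eq_of_natDegree_le (nmul le_rfl hQQ) hB,
        coeff_mul_add_eq_of_natDegree_le le_rfl hQQ, hQQc, show 1 + 3 = 3 + 1 from rfl, coeff_X_mul, hF1c]
      ring
    rw [e1, e2] at hco
    have h3 : (2 * (k : L) + 3) * P.coeff k = 0 := by linear_combination hco
    rcases mul_eq_zero.1 h3 with h4 | h4
    · have : ((2 * k + 3 : ℕ) : L) = 0 := by push_cast; exact h4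
      have h5 := Nat.cast_eq_zero.1 this
      omega
    · exact hPl h4
  subst hP0
  have hco := congrArg (fun R : L[X] => R.coeff ((q + q) + 3)) hId
  simp only [coeff_sub, coeff_add, coeff_C_mul, derivative_zero, mul_zero, zero_mul, coeff_zero] at hco
  have e1 : (((X ^ 2 * derivative (derivative Q)) * Q -
      (X * derivative Q) * (X * derivative Q)) * f).coeff ((q + q) + 3) = - (q : L) := by
    have hB : ((X ^ 2 * derivative (derivative Q)) * Q -
      (X * derivative Q) * (X * derivative Q)).natDegree ≤ q + q := by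
      refine le_trans (natDegree_sub_le _ _) (max_le ?_ ?_)
      · exact nmul (nA2 Q) le_rfl
      · exact nmul (nA1 Q) (nA1 Q)
    rw [coeff_mul_add_eq_of_natDegree_le hB hff, hfc, coeff_sub,
      coeff_mul_add_eq_of_natDegree_le (nA2 Q) le_rfl, coeff_mul_add_eq_of_natDegree_le (nA1 Q) (nA1 Q), cA1, cA2,
      hQc]
    ring
  have e2 : ((X * derivative Q) * Q * F1).coeff ((q + q) + 3) = 3 * (q : L) := by
    rw [coeff_mul_add_eq_of_natDegree_le (nmul (nA1 Q) le_rfl) hF1',
      coeff_mul_add_eq_of_natDegree_le (nA1 Q) le_rfl, cA1, hQc, hF1c]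
    ring
  have e3 : (N * Q * X ^ 2).coeff ((q + q) + 3) = γ⁻¹ := by
    rw [show (q + q) + 3 = ((q + 1) + q) + 2 by ring,
      coeff_mul_add_eq_of_natDegree_le (nmul hN.le le_rfl) hX2, coeff_mul_add_eq_of_natDegree_le hN.le le_rfl, hQc,
      ← hN, coeff_natDegree, hNl, coeff_X_pow_self]
    ring
  have e4 : (X ^ 3 * (Q * Q)).coeff ((q + q) + 3) = 1 := by
    rw [show (q + q) + 3 = 3 + (q + q) by ring, coeff_mul_add_eq_of_natDegree_le hX3 hQQ, hQQc,
      coeff_X_pow_self, one_mul]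
  rw [e1, e2, e3, e4, czero d5 (by omega), hc] at hco
  have h6 : β * (γ - ((q : L) + 1)) = 0 := by
    field_simp at hco
    linear_combination (1 / 2 : L) * hco
  rcases mul_eq_zero.1 h6 with h7 | h7
  · exact absurd h7 hβ
  · exact sub_eq_zero.1 h7


end

theorem pGMN (h1 : StEXI) (h2 : StPOL) (h3 : StORD) (h4 : StREG) (h5 : StFIN) (h6 : StDER)
    (h7 : StLCD) (_h8 : StTOP) : StGMN := by
  intro L _ _ _ d Dt j γ w hDt hdj hγ hdeg hrel
  -- constants
  have hdn : ∀ n : ℕ, d (n : L) = 0 := fun n => Derivation.map_natCast d n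
  have hj : j ≠ 0 := by
    rintro rfl
    rw [map_zero] at hdj
    exact zero_ne_one hdj
  have hj2 : 4 * j + 27 ≠ 0 := by
    intro h
    have h' := congrArg d h
    have e4 := hdn 4
    have e27 := hdn 27
    push_cast at e4 e27
    rw [map_add, Derivation.leibniz, hdj, e4, e27, map_zero] at h'
    simp at h'
  have hdisc : ∀ p : L, p ^ 3 + j * p + j = 0 → 3 * p ^ 2 + j ≠ 0 := by
    intro p hp hp2
    have : j ^ 2 * (4 * j + 27) = 0 := by
      linear_combination (27 * j - 18 * j * p) * hp + (6 * j * p ^ 2 - 9 * j * p + 4 * j ^ 2) * hp2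
    rcases mul_eq_zero.1 this with h | h
    · exact hj (pow_eq_zero_iff (two_ne_zero)|>.1 h)
    · exact hj2 h
  have hnc : ¬ Cst w := by
    rintro ⟨a, rfl⟩
    rw [RatFunc.intDegree_C] at hdeg
    exact lt_irrefl _ hdeg
  have hDw : Dt w ≠ 0 := fun h => hnc (((h6 L).2.2.2 Dt hDt w).1 h)
  obtain ⟨Dc, hDc⟩ := (h6 L).1 d 0
  obtain ⟨β, δ, T, hβ, hT⟩ := h1 L d Dc Dt j γ w hDc hDt hdj hγ hDw hrel
  obtain ⟨P1, P2, P3⟩ := h2 L Dt j γ w hDt hγ hnc hrel
  obtain ⟨hd1, hlead⟩ := P3 hdeg
  set R : RatFunc L := RatFunc.C β * (w - RatFunc.X) - RatFunc.C δ with hR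
  have hw0 : w ≠ 0 := by
    rintro rfl
    exact hnc ⟨0, by rw [map_zero]⟩
  set Q : L[X] := w.denom with hQdef
  have hQm : Q.Monic := RatFunc.monic_denom w
  have hQ0 : Q ≠ 0 := hQm.ne_zero
  set c : L := 2 * β / γ with hc
  have vf : ∀ p : L, VV p (wei j j RatFunc.X) (p ^ 3 + j * p + j) := fun p =>
    vv_add h4 (vv_add h4 (vv_pow h4 (vv_X h4) 3) (vv_mul h4 (vv_C h4 j) (vv_X h4))) (vv_C h4 j)
  have vf' : ∀ p : L, VV p (3 * RatFunc.X ^ 2 + RatFunc.C j) (3 * p ^ 2 + j) := fun p => by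
    have h := vv_add h4 (vv_mul h4 (vv_C (p := p) h4 (3 : L)) (vv_pow h4 (vv_X h4) 2)) (vv_C h4 j)
    rwa [map_ofNat] at h
  -- regularity of `R` where `w` is regular, and of `w` where `R` is
  have hwR : ∀ p : L, Reg p R → Reg p w := by
    intro p hp
    have e : w = (R + RatFunc.C δ) * RatFunc.C β⁻¹ + RatFunc.X := by
      have hb : RatFunc.C β ≠ (0 : RatFunc L) := by
        rw [Ne, map_eq_zero]
        exact hβ
      rw [hR, map_inv₀]
      field_simp
      ring
    rw [e]
    exact (vv_add h4 (vv_mul h4 (vv_add h4 ⟨hp, rfl⟩ (vv_C h4 δ)) (vv_C h4 β⁻¹)) (vv_X h4)).1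
  have hTR : ∀ p : L, Reg p T → Reg p R := by
    intro p hp
    rw [← hT, div_eq_mul_inv, half]
    have v1 : VV p (Dt T) _ := ⟨Dt_reg h7 h4 hDt hp, rfl⟩
    have v2 : VV p T _ := ⟨hp, rfl⟩
    exact (vv_add h4 (vv_mul h4 v1 (vf p)) (vv_mul h4 (vv_mul h4 v2 (vf' p)) (vv_C h4 2⁻¹))).1
  have hRt : ∀ (p : L) (m : ℕ), R * (RatFunc.X - RatFunc.C p) ^ m =
      RatFunc.C β * (w * (RatFunc.X - RatFunc.C p) ^ m) -
        (RatFunc.C β * RatFunc.X + RatFunc.C δ) * (RatFunc.X - RatFunc.C p) ^ m := by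
    intro p m
    rw [hR]
    ring
  -- the factor
  have hfac : ∀ p : L, p ^ 3 + j * p + j = 0 → ∃ f1 : RatFunc L,
      wei j j RatFunc.X = (RatFunc.X - RatFunc.C p) * f1 ∧ VV p f1 (3 * p ^ 2 + j) := by
    intro p hp
    refine ⟨RatFunc.X ^ 2 + RatFunc.C p * RatFunc.X + RatFunc.C (p ^ 2 + j), ?_, ?_⟩
    · have : RatFunc.C (p ^ 3 + j * p + j) = (0 : RatFunc L) := by rw [hp, map_zero]
      rw [map_add, map_add, map_mul, map_pow] at this
      unfold wei
      rw [map_add, map_pow]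
      linear_combination this
    · have h := vv_add h4 (vv_add h4 (vv_pow h4 (vv_X (p := p) h4) 2)
        (vv_mul h4 (vv_C h4 p) (vv_X h4))) (vv_C h4 (p ^ 2 + j))
      convert h using 1
      ring
  -- multiplicity of the denominator
  have hmult : ∀ p : L, ¬ Reg p w → (Q.rootMultiplicity p : ℤ) = - ord p w := by
    intro p hp
    have hd : w.denom.eval p = 0 := by
      by_contra h
      exact hp h
    have hn : w.num.eval p ≠ 0 := by
      intro h
      have hco := RatFunc.isCoprime_num_denom w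
      obtain ⟨a, b, hab⟩ := hco
      have := congrArg (Polynomial.eval p) hab
      rw [eval_add, eval_mul, eval_mul, h, hd, eval_one] at this
      simp at this
    have hn0 : w.num.rootMultiplicity p = 0 := rootMultiplicity_eq_zero hn
    unfold ord
    rw [hn0, hQdef]
    ring
  -- the claim
  have hU : ∀ p : L, Reg p (T + RatFunc.C c *
      (Dt (algebraMap L[X] (RatFunc L) Q) / algebraMap L[X] (RatFunc L) Q)) := by
    intro p
    by_cases hwp : Reg p w
    · have hRp : Reg p R := (vv_sub h4 (vv_mul h4 (vv_C h4 β) (vv_sub h4 ⟨hwp, rfl⟩ (vv_X h4)))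
        (vv_C h4 δ)).1
      have hTp : Reg p T := by
        by_contra hTn
        obtain ⟨n, u, a, hn, ha, hva, hu⟩ := pole h3 h4 hTn
        have v1 : ∀ m : ℕ, 1 ≤ m → VV p (R * (RatFunc.X - RatFunc.C p) ^ m) 0 := by
          intro m hm
          have := vv_mul h4 ⟨hRp, rfl⟩ (vv_pow h4 (vv_t (p := p) h4) m)
          rwa [zero_pow (by omega), mul_zero] at this
        by_cases hs : p ^ 3 + j * p + j = 0
        · obtain ⟨f1, hf1, hf2⟩ := hfac p hs
          have v2 := loc1 h4 h7 hDt hn hu hva hf1 hf2 (vf' p) hT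
          have e := vv_uniq v2 (v1 n hn)
          have h2n : (2⁻¹ - (n : L)) ≠ 0 := by
            intro h
            have : ((2 * n : ℕ) : L) = ((1 : ℕ) : L) := by
              push_cast
              linear_combination (-2) * h
            have := Nat.cast_injective this
            omega
          exact (mul_ne_zero (mul_ne_zero h2n ha) (hdisc p hs)) e
        · have v2 := loc0 h4 h7 hDt hn hu hva (vf p) (vf' p) hT
          have e := vv_uniq v2 (v1 (n + 1) (by omega))
          have hn0 : (n : L) ≠ 0 := Nat.cast_ne_zero.2 (by omega)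
          exact (mul_ne_zero (mul_ne_zero hn0 ha) hs) (neg_eq_zero.1 e)
      have hQe : Q.eval p ≠ 0 := hwp
      rw [Dt_poly hDt]
      have v2 := ((h4 L p).1 (derivative Q) Q hQe).1
      exact (vv_add h4 ⟨hTp, rfl⟩ (vv_mul h4 (vv_C h4 c) ⟨v2, rfl⟩)).1
    · have hTn : ¬ Reg p T := fun h => hwp (hwR p (hTR p h))
      obtain ⟨n, u, a, hn, ha, hva, hu⟩ := pole h3 h4 hTn
      have hm := hmult p hwp
      by_cases hs : p ^ 3 + j * p + j = 0
      · obtain ⟨ho, hr, hv⟩ := P2 p hwp hs (hdisc p hs)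
        obtain ⟨f1, hf1, hf2⟩ := hfac p hs
        have v2 := loc1 h4 h7 hDt hn hu hva hf1 hf2 (vf' p) hT
        have vw : VV p (w * (RatFunc.X - RatFunc.C p) ^ 1) ((3 * p ^ 2 + j) / γ) := by
          rw [pow_one, mul_comm]
          exact ⟨hr, hv⟩
        have hmm : Q.rootMultiplicity p = 1 := by omega
        have v3 : ∀ k : ℕ, VV p (R * (RatFunc.X - RatFunc.C p) ^ (k + 1))
            (β * ((3 * p ^ 2 + j) / γ * 0 ^ k)) := by
          intro k
          rw [hRt p (k + 1), pow_succ' _ k]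
          have := vv_sub h4 (vv_mul h4 (vv_C h4 β) (vv_mul h4 vw (vv_pow h4 (vv_t (p := p) h4) k)))
            (vv_mul h4 (vv_add h4 (vv_mul h4 (vv_C h4 β) (vv_X (p := p) h4)) (vv_C h4 δ))
              (vv_mul h4 (vv_t (p := p) h4) (vv_pow h4 (vv_t (p := p) h4) k)))
          rw [zero_mul, mul_zero, sub_zero, pow_one, mul_assoc w] at this
          exact this
        have h2n : (2⁻¹ - (n : L)) ≠ 0 := by
          intro h
          have : ((2 * n : ℕ) : L) = ((1 : ℕ) : L) := by
            push_cast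
            linear_combination (-2) * h
          have := Nat.cast_injective this
          omega
        obtain ⟨k, rfl⟩ : ∃ k, n = k + 1 := ⟨n - 1, by omega⟩
        have e := vv_uniq v2 (v3 k)
        have hk : k = 0 := by
          by_contra hk
          rw [zero_pow hk, mul_zero, mul_zero] at e
          exact (mul_ne_zero (mul_ne_zero h2n ha) (hdisc p hs)) e
        subst hk
        refine regU h3 h4 h7 hDt hQ0 (u := u) (a := a) (by rw [← hu]; simp) hva ?_
        rw [hmm]
        have h5 : (a + c) * (3 * p ^ 2 + j) = 0 := by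
          have e2 : (2⁻¹ - 1) * a * (3 * p ^ 2 + j) = β * ((3 * p ^ 2 + j) / γ) := by
            simpa using e
          rw [hc]
          linear_combination (-2) * e2
        rcases mul_eq_zero.1 h5 with h | h
        · push_cast
          linear_combination h
        · exact absurd h (hdisc p hs)
      · obtain ⟨ho, hr, hv⟩ := P1 p hwp hs
        have v2 := loc0 h4 h7 hDt hn hu hva (vf p) (vf' p) hT
        have vw : VV p (w * (RatFunc.X - RatFunc.C p) ^ 2) (4 * (p ^ 3 + j * p + j) / γ) := by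
          rw [mul_comm]
          exact ⟨hr, hv⟩
        have hmm : Q.rootMultiplicity p = 2 := by omega
        have v3 : ∀ k : ℕ, VV p (R * (RatFunc.X - RatFunc.C p) ^ (k + 2))
            (β * (4 * (p ^ 3 + j * p + j) / γ * 0 ^ k)) := by
          intro k
          rw [hRt p (k + 2), pow_add _ k 2]
          have := vv_sub h4 (vv_mul h4 (vv_C h4 β) (vv_mul h4 vw (vv_pow h4 (vv_t (p := p) h4) k)))
            (vv_mul h4 (vv_add h4 (vv_mul h4 (vv_C h4 β) (vv_X (p := p) h4)) (vv_C h4 δ))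
              (vv_mul h4 (vv_pow h4 (vv_t (p := p) h4) k) (vv_pow h4 (vv_t (p := p) h4) 2)))
          rw [zero_pow (two_ne_zero), mul_zero, mul_zero, sub_zero] at this
          rw [show w * ((RatFunc.X - RatFunc.C p) ^ k * (RatFunc.X - RatFunc.C p) ^ 2) =
            w * (RatFunc.X - RatFunc.C p) ^ 2 * (RatFunc.X - RatFunc.C p) ^ k by ring]
          exact this
        obtain ⟨k, rfl⟩ : ∃ k, n = k + 1 := ⟨n - 1, by omega⟩
        have e := vv_uniq v2 (v3 k)
        have hn0 : ((k + 1 : ℕ) : L) ≠ 0 := Nat.cast_ne_zero.2 (by omega)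
        have hk : k = 0 := by
          by_contra hk
          rw [zero_pow hk, mul_zero, mul_zero] at e
          exact (mul_ne_zero (mul_ne_zero hn0 ha) hs) (neg_eq_zero.1 e)
        subst hk
        refine regU h3 h4 h7 hDt hQ0 (u := u) (a := a) (by rw [← hu]; simp) hva ?_
        rw [hmm]
        have h5 : (a + c * 2) * (p ^ 3 + j * p + j) = 0 := by
          have e2 : -(a * (p ^ 3 + j * p + j)) = β * (4 * (p ^ 3 + j * p + j) / γ) := by
            simpa using e
          rw [hc]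
          linear_combination (-1) * e2
        rcases mul_eq_zero.1 h5 with h | h
        · push_cast
          linear_combination h
        · exact absurd h hs
  -- a polynomial
  obtain ⟨P, hP⟩ := (h5 L).1 _ hU
  have hw : w = algebraMap L[X] (RatFunc L) w.num / algebraMap L[X] (RatFunc L) Q :=
    (RatFunc.num_div_denom w).symm
  have hq0 : algebraMap L[X] (RatFunc L) Q ≠ 0 := by
    intro h
    exact hQ0 ((RatFunc.algebraMap_injective L) (by rw [h, map_zero]))
  have hTe : T = algebraMap L[X] (RatFunc L) P - RatFunc.C c *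
      (algebraMap L[X] (RatFunc L) (derivative Q) / algebraMap L[X] (RatFunc L) Q) := by
    rw [← hP, Dt_poly hDt]
    ring
  have hDT : Dt T = algebraMap L[X] (RatFunc L) (derivative P) - RatFunc.C c *
      ((algebraMap L[X] (RatFunc L) (derivative (derivative Q)) * algebraMap L[X] (RatFunc L) Q -
        algebraMap L[X] (RatFunc L) (derivative Q) * algebraMap L[X] (RatFunc L) (derivative Q)) /
          algebraMap L[X] (RatFunc L) Q ^ 2) := by
    have hdc : Dt (RatFunc.C c) = 0 := by rw [hDt.1 c, Derivation.zero_apply, map_zero]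
    rw [hTe, map_sub, Dt_poly hDt, Derivation.leibniz, hdc, Derivation.leibniz_div, Dt_poly hDt,
      Dt_poly hDt]
    simp only [smul_eq_mul]
    field_simp
    ring
  have hfin := infinity (P := P) (Q := Q) (N := w.num) (j := j) (c := c) (β := β) (δ := δ) hγ hβ hc
    hQm (by
      have : RatFunc.intDegree w = (w.num.natDegree : ℤ) - w.denom.natDegree := rfl
      rw [hd1] at this
      rw [hQdef]
      omega) hlead (by
      apply RatFunc.algebraMap_injective L
      simp only [map_mul, map_add, map_sub, map_pow, RatFunc.algebraMap_X, RatFunc.algebraMap_C]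
      have h := hT
      rw [hR, hDT, hTe] at h
      rw [hw] at h
      unfold wei at h
      simp only [map_ofNat]
      field_simp at h
      linear_combination h)
  rw [hfin]
  unfold dg
  have : RatFunc.intDegree w = (w.num.natDegree : ℤ) - w.denom.natDegree := rfl
  rw [hd1] at this
  rw [max_eq_left (by omega), show w.num.natDegree = Q.natDegree + 1 by rw [hQdef]; omega]
  push_cast
  ring

end Pool.Agent.Helper76.RK
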